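import Mathlib

set_option autoImplicit false

/-!
# Hamiltonians on the cotangent bundle of a closed manifold `ℝⁿ / Γ`: definitions

Energy levels, the critical values `e_0` and `c_u`, and energy levels of contact type, for the
closed manifolds `M = ℝⁿ / Γ`. Everything is written on the universal cover `ℝⁿ`: functions and
`1`-forms on `T*M` are the functions and `1`-forms on `T*ℝⁿ` that are invariant under the cotangent
lifts of the elements of `Γ`.
-/

open Set Filter Topology
open scoped ContDiff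

namespace Pool.Agent.Helper58.MCV

/-- `ℝⁿ`, the universal cover of the closed manifolds `M = ℝⁿ / Γ` below. -/
abbrev V (n : ℕ) : Type := Fin n → ℝ

/-- `T*ℝⁿ` with its canonical coordinates `(x, p)`; the covector `p` is `v ↦ ∑ i, p i * v i`. The
tangent vectors of `T*ℝⁿ` are pairs `(v, b)` as well. -/
abbrev Cot (n : ℕ) : Type := V n × V n

/-- `Γ` is a group of diffeomorphisms of `ℝⁿ` that acts freely, properly discontinuously and
cocompactly. Then `M = ℝⁿ / Γ` is a closed connected smooth `n`-manifold and its universal cover is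
`ℝⁿ`. (The inverse of an element of `Γ` lies in `Γ`, so it is smooth as well.) -/
structure IsDeckGroup {n : ℕ} (Γ : Subgroup (Equiv.Perm (V n))) : Prop where
  /-- the elements are smooth -/
  smooth : ∀ g ∈ Γ, ContDiff ℝ ∞ g
  /-- only the identity has fixed points -/
  free : ∀ g ∈ Γ, ∀ x, g x = x → g = 1
  /-- a compact set meets only finitely many of its translates -/
  proper : ∀ K : Set (V n), IsCompact K → {g | g ∈ Γ ∧ (g '' K ∩ K).Nonempty}.Finite
  /-- the translates of some compact set cover `ℝⁿ` -/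
  cocompact : ∃ K : Set (V n), IsCompact K ∧ ∀ x, ∃ g ∈ Γ, g x ∈ K

/-- The derivative at `z` of a function on `T*ℝⁿ` in the direction `w`. -/
noncomputable def D {n : ℕ} (f : Cot n → ℝ) (z w : Cot n) : ℝ := fderiv ℝ f z w

/-- The differential `d_x u` of a function `u` on `ℝⁿ`, as a covector in coordinates:
`(∂u/∂x_i)_i`. -/
noncomputable def diff {n : ℕ} (u : V n → ℝ) (x : V n) : V n := fun i =>
  fderiv ℝ u x (Pi.single i 1)

/-- The cotangent lift of a diffeomorphism `g` of `ℝⁿ`: `(x, p) ↦ (g x, p ∘ D(g⁻¹)(g x))`. -/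
noncomputable def lift {n : ℕ} (g : Equiv.Perm (V n)) (z : Cot n) : Cot n :=
  (g z.1, fun i => ∑ j, z.2 j * fderiv ℝ g.symm (g z.1) (Pi.single i 1) j)

/-- The canonical symplectic form `ω = d(p dx)` of `T*ℝⁿ`, evaluated at two tangent vectors
`u = (u_x, u_p)` and `v = (v_x, v_p)`: `u_p(v_x) - v_p(u_x)`. -/
def omega {n : ℕ} (u v : Cot n) : ℝ := ∑ i, (u.2 i * v.1 i - v.2 i * u.1 i)

/-- The function `H` on `T*ℝⁿ` is (the lift of) a function on `T*M`, where `M = ℝⁿ / Γ`. -/
def Invariant {n : ℕ} (Γ : Subgroup (Equiv.Perm (V n))) (H : Cot n → ℝ) : Prop :=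
  ∀ g ∈ Γ, ∀ z, H (lift g z) = H z

/-- The Hessian of `H` along the fibres is positive definite. -/
def FibreConvex {n : ℕ} (H : Cot n → ℝ) : Prop :=
  ∀ x p a : V n, a ≠ 0 → 0 < D (fun z => D H z (0, a)) (x, p) (0, a)

/-- `H(x, p) / |p| → ∞` as `|p| → ∞`, uniformly for `x` in compact sets. As `Γ` is cocompact, for
the lift of a function on `T*M` this is uniformity in `x ∈ M`. -/
def Superlinear {n : ℕ} (H : Cot n → ℝ) : Prop :=
  ∀ K : Set (V n), IsCompact K → ∀ C : ℝ, ∃ R : ℝ, ∀ x ∈ K, ∀ p : V n,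
    R ≤ ‖p‖ → C * ‖p‖ ≤ H (x, p)

/-- `H` is a smooth convex superlinear Hamiltonian on `T*M`, `M = ℝⁿ / Γ`. -/
structure IsTonelli {n : ℕ} (Γ : Subgroup (Equiv.Perm (V n))) (H : Cot n → ℝ) : Prop where
  smooth : ContDiff ℝ ∞ H
  invariant : Invariant Γ H
  convex : FibreConvex H
  superlinear : Superlinear H

/-- `e = e_0 = min {h | π(Σ_h) = M}`, where `Σ_h = {H = h}`. -/
def IsE0 {n : ℕ} (H : Cot n → ℝ) (e : ℝ) : Prop :=
  IsLeast {h : ℝ | ∀ x : V n, ∃ p : V n, H (x, p) = h} e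

/-- The Mañé critical value `c_u = inf_u sup_x H(x, d_x u)` of the lift of the Hamiltonian to the
universal cover `ℝⁿ` of `M`; `u` runs through the smooth functions on `ℝⁿ`. -/
noncomputable def criticalValue {n : ℕ} (H : Cot n → ℝ) : EReal :=
  ⨅ (u : V n → ℝ) (_ : ContDiff ℝ ∞ u), ⨆ x : V n, ((H (x, diff u x) : ℝ) : EReal)

/-- `Λ` is a smooth `1`-form on `T*ℝⁿ` (`Λ z w` is the value at `z` on the tangent vector `w`) that
is invariant under the cotangent lifts of the elements of `Γ`; so it is (the lift of) a smooth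
`1`-form on `T*M`, `M = ℝⁿ / Γ`. -/
structure IsOneForm {n : ℕ} (Γ : Subgroup (Equiv.Perm (V n))) (Λ : Cot n → Cot n → ℝ) :
    Prop where
  linear : ∀ z, IsLinearMap ℝ (Λ z)
  smooth : ∀ w, ContDiff ℝ ∞ fun z => Λ z w
  invariant : ∀ g ∈ Γ, ∀ z w, Λ (lift g z) (fderiv ℝ (lift g) z w) = Λ z w

/-- The exterior derivative of a `1`-form at `z`: `dΛ(u, v) = D_u (Λ v) - D_v (Λ u)` for constant
vector fields `u`, `v`. -/
noncomputable def extD {n : ℕ} (Λ : Cot n → Cot n → ℝ) (z u v : Cot n) : ℝ :=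
  D (fun y => Λ y v) z u - D (fun y => Λ y u) z v

/-- `X` is the value at `z` of the Hamiltonian vector field of `H`: `ω(X, ·) = -dH`, that is
`X = (∂H/∂p, -∂H/∂x)`. -/
def IsHamiltonianVector {n : ℕ} (H : Cot n → ℝ) (z X : Cot n) : Prop :=
  ∀ v, omega X v = - D H z v

/-- `dΛ = ω` on the tangent space `ker dH` at `z` of the level of `H` through `z`. -/
def IsPrimitiveAt {n : ℕ} (Λ : Cot n → Cot n → ℝ) (H : Cot n → ℝ) (z : Cot n) : Prop :=
  ∀ u v, D H z u = 0 → D H z v = 0 → extD Λ z u v = omega u v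

/-- The level `Σ_h = {H = h}` in `T*M`, `M = ℝⁿ / Γ`, is of contact type: there is a smooth
`1`-form `Λ` on `T*M` whose restriction `λ` to `Σ_h` satisfies `dλ = ω` on `Σ_h`, and
`λ(X_H) > 0`, where `X_H` is the Hamiltonian vector field of `H`. -/
def IsContactType {n : ℕ} (Γ : Subgroup (Equiv.Perm (V n))) (H : Cot n → ℝ) (h : ℝ) : Prop :=
  ∃ Λ : Cot n → Cot n → ℝ, IsOneForm Γ Λ ∧
    ∀ z, H z = h → IsPrimitiveAt Λ H z ∧ ∃ X, IsHamiltonianVector H z X ∧ 0 < Λ z X

end Pool.Agent.Helper58.MCV
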