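import Pool.Agent.Helper58.MCV.Defs

set_option autoImplicit false

open Set Filter Topology
open scoped ContDiff

namespace Pool.Agent.Helper58.MCV

/-! ### The group -/

section group

variable {k : ℕ}

/-- The weights. -/
def c (i : Fin (k + 3)) : ℝ := if i = 1 then 1 else if i = 2 then -1 else 0

/-- The coordinates of the distinguished form. -/
def del (i : Fin (k + 3)) : ℝ := if i = 1 then 1 else 0

theorem val2 : ((2 : Fin (k + 3)) : ℕ) = 2 := Nat.mod_eq_of_lt (by omega : 2 < k + 3)

theorem c0 : c (0 : Fin (k + 3)) = 0 := by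
  have h1 : (0 : Fin (k + 3)) ≠ 1 := by
    intro h; simpa using congrArg Fin.val h
  have h2 : (0 : Fin (k + 3)) ≠ 2 := by
    intro h
    have := congrArg Fin.val h
    rw [val2] at this
    simp at this
  simp [c, h1, h2]

theorem c1 : c (1 : Fin (k + 3)) = 1 := by simp [c]

theorem two_ne_one : (2 : Fin (k + 3)) ≠ 1 := by
  intro h
  have := congrArg Fin.val h
  rw [val2] at this
  simp at this

theorem c2 : c (2 : Fin (k + 3)) = -1 := by simp [c, two_ne_one]

theorem c3 (j : Fin k) : c (j.succ.succ.succ : Fin (k + 3)) = 0 := by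
  have h1 : (j.succ.succ.succ : Fin (k + 3)) ≠ 1 := by
    intro h
    have := congrArg Fin.val h
    simp at this
  have h2 : (j.succ.succ.succ : Fin (k + 3)) ≠ 2 := by
    intro h
    have := congrArg Fin.val h
    rw [val2] at this
    simp at this
  simp [c, h1, h2]

theorem d0 : del (0 : Fin (k + 3)) = 0 := by
  have h1 : (0 : Fin (k + 3)) ≠ 1 := by
    intro h; simpa using congrArg Fin.val h
  simp [del, h1]

theorem d1 : del (1 : Fin (k + 3)) = 1 := by simp [del]

theorem d2 : del (2 : Fin (k + 3)) = 0 := by simp [del, two_ne_one]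

theorem d3 (j : Fin k) : del (j.succ.succ.succ : Fin (k + 3)) = 0 := by
  have h1 : (j.succ.succ.succ : Fin (k + 3)) ≠ 1 := by
    intro h
    have := congrArg Fin.val h
    simp at this
  simp [del, h1]

theorem sum3 (f : Fin (k + 3) → ℝ) :
    ∑ i, f i = f 0 + f 1 + f 2 + ∑ j : Fin k, f j.succ.succ.succ := by
  rw [Fin.sum_univ_succ, Fin.sum_univ_succ, Fin.sum_univ_succ]
  have h1 : (Fin.succ 0 : Fin (k + 3)) = 1 := by ext; simp
  have h2 : (Fin.succ (Fin.succ 0) : Fin (k + 3)) = 2 := by ext; rw [val2]; simp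
  rw [h1, h2]
  ring

/-- Left translations of the group. -/
noncomputable def tr (w : V (k + 3)) : Equiv.Perm (V (k + 3)) where
  toFun x := fun i => w i + Real.exp (c i * w 0) * x i
  invFun y := fun i => Real.exp (-(c i * w 0)) * (y i - w i)
  left_inv x := by
    ext i
    have : Real.exp (-(c i * w 0)) * Real.exp (c i * w 0) = 1 := by
      rw [← Real.exp_add]; simp
    simp only [add_sub_cancel_left]
    rw [← mul_assoc, this, one_mul]
  right_inv y := by
    ext i
    have : Real.exp (c i * w 0) * Real.exp (-(c i * w 0)) = 1 := by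
      rw [← Real.exp_add]; simp
    simp only
    rw [← mul_assoc, this, one_mul]; ring

theorem tr_apply (w x : V (k + 3)) (i : Fin (k + 3)) :
    tr w x i = w i + Real.exp (c i * w 0) * x i := rfl

theorem tr_zero (w x : V (k + 3)) : tr w x 0 = w 0 + x 0 := by
  rw [tr_apply, c0]; simp

theorem tr_one : tr (0 : V (k + 3)) = 1 := by
  ext x i
  simp [tr_apply]

theorem tr_mul (w w' : V (k + 3)) : tr w * tr w' = tr (tr w w') := by
  ext x i
  rw [Equiv.Perm.mul_apply, tr_apply, tr_apply, tr_apply, tr_apply, tr_zero, mul_add (c i), Real.exp_add]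
  ring

theorem tr_inv (w : V (k + 3)) : (tr w)⁻¹ = tr ((tr w).symm 0) := by
  rw [inv_eq_iff_mul_eq_one, tr_mul, Equiv.apply_symm_apply, tr_one]

end group

/-! ### The lattice -/

section lattice

open Real

variable {k : ℕ}

/-- The translation length `2 log φ`. -/
noncomputable def s0 : ℝ := 2 * Real.log goldenRatio

theorem s0_pos : 0 < s0 := by
  have := Real.log_pos one_lt_goldenRatio
  unfold s0; linarith

theorem exp_s0 : Real.exp s0 = goldenRatio + 1 := by
  unfold s0
  rw [two_mul, Real.exp_add, Real.exp_log goldenRatio_pos, ← sq, goldenRatio_sq]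

theorem exp_neg_s0 : Real.exp (-s0) = goldenConj + 1 := by
  have h : Real.exp (-s0) * Real.exp s0 = 1 := by rw [← Real.exp_add]; simp
  rw [exp_s0] at h
  have h2 : (goldenConj + 1) * (goldenRatio + 1) = 1 := by
    have e1 := goldenRatio_mul_goldenConj
    have e2 := goldenRatio_add_goldenConj
    nlinarith
  have h3 : goldenRatio + 1 ≠ 0 := by
    have := goldenRatio_pos; linarith
  exact mul_right_cancel₀ h3 (h.trans h2.symm)

/-- Multiplication by the unit `φ ^ (2 j)`, `j ∈ ℤ`, preserves the ring of integers. -/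
theorem unit_mul (j : ℤ) (a b : ℤ) : ∃ a' b' : ℤ,
    Real.exp (j * s0) * (a + b * goldenRatio) = a' + b' * goldenRatio ∧
    Real.exp (-(j * s0)) * (a + b * goldenConj) = a' + b' * goldenConj := by
  induction j with
  | zero => exact ⟨a, b, by simp, by simp⟩
  | succ j ih =>
    obtain ⟨a', b', h1, h2⟩ := ih
    refine ⟨a' + b', a' + 2 * b', ?_, ?_⟩
    · have : Real.exp (((j + 1 : ℤ) : ℝ) * s0) = Real.exp s0 * Real.exp ((j : ℤ) * s0) := by
        rw [← Real.exp_add]; push_cast; ring_nf
      rw [this, mul_assoc, h1, exp_s0]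
      have := goldenRatio_sq
      push_cast
      linear_combination (b' : ℝ) * this
    · have : Real.exp (-(((j + 1 : ℤ) : ℝ) * s0)) = Real.exp (-s0) * Real.exp (-((j : ℤ) * s0)) := by
        rw [← Real.exp_add]; push_cast; ring_nf
      rw [this, mul_assoc, h2, exp_neg_s0]
      have := goldenConj_sq
      push_cast
      linear_combination (b' : ℝ) * this
  | pred j ih =>
    obtain ⟨a', b', h1, h2⟩ := ih
    refine ⟨2 * a' - b', b' - a', ?_, ?_⟩
    · have : Real.exp (((-(j : ℤ) - 1 : ℤ) : ℝ) * s0) =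
          Real.exp (-s0) * Real.exp (((-(j : ℤ) : ℤ) : ℝ) * s0) := by
        rw [← Real.exp_add]; push_cast; ring_nf
      rw [this, mul_assoc, h1, exp_neg_s0]
      have e1 := goldenRatio_mul_goldenConj
      have e2 := goldenRatio_add_goldenConj
      have e3 := goldenRatio_sq
      push_cast
      have e4 : goldenConj = 1 - goldenRatio := by linarith
      rw [e4]
      linear_combination (-(b' : ℝ)) * e3
    · have : Real.exp (-(((-(j : ℤ) - 1 : ℤ) : ℝ) * s0)) =
          Real.exp s0 * Real.exp (-(((-(j : ℤ) : ℤ) : ℝ) * s0)) := by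
        rw [← Real.exp_add]; push_cast; ring_nf
      rw [this, mul_assoc, h2, exp_s0]
      have e2 := goldenRatio_add_goldenConj
      have e3 := goldenConj_sq
      push_cast
      have e4 : goldenRatio = 1 - goldenConj := by linarith
      rw [e4]
      linear_combination (-(b' : ℝ)) * e3

/-- The lattice points. -/
noncomputable def lat (a : Fin (k + 3) → ℤ) : V (k + 3) := fun i =>
  if i = 0 then a 0 * s0 else if i = 1 then a 1 + a 2 * goldenRatio
    else if i = 2 then a 1 + a 2 * goldenConj else a i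

theorem lat0 (a : Fin (k + 3) → ℤ) : lat a 0 = a 0 * s0 := by simp [lat]

theorem one_ne_zero' : (1 : Fin (k + 3)) ≠ 0 := by
  intro h; simpa using congrArg Fin.val h

theorem two_ne_zero' : (2 : Fin (k + 3)) ≠ 0 := by
  intro h
  have := congrArg Fin.val h
  rw [val2] at this
  simp at this

theorem lat1 (a : Fin (k + 3) → ℤ) : lat a 1 = a 1 + a 2 * goldenRatio := by
  simp [lat]

theorem lat2 (a : Fin (k + 3) → ℤ) : lat a 2 = a 1 + a 2 * goldenConj := by
  simp [lat, two_ne_zero', two_ne_one]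

theorem ne3 (j : Fin k) : (j.succ.succ.succ : Fin (k + 3)) ≠ 0 ∧
    (j.succ.succ.succ : Fin (k + 3)) ≠ 1 ∧ (j.succ.succ.succ : Fin (k + 3)) ≠ 2 := by
  refine ⟨Fin.succ_ne_zero _, ?_, ?_⟩
  · intro h
    have := congrArg Fin.val h
    simp at this
  · intro h
    have := congrArg Fin.val h
    rw [val2] at this
    simp at this

theorem lat3 (a : Fin (k + 3) → ℤ) (j : Fin k) :
    lat a j.succ.succ.succ = a j.succ.succ.succ := by
  simp [lat, ne3 j]

/-- Case distinction on the coordinates. -/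
theorem cases3 {P : Fin (k + 3) → Prop} (h0 : P 0) (h1 : P 1) (h2 : P 2)
    (h3 : ∀ j : Fin k, P j.succ.succ.succ) : ∀ i, P i := by
  intro i
  refine Fin.cases h0 (fun i => ?_) i
  refine Fin.cases (motive := fun i : Fin (k + 2) => P i.succ) ?_ (fun i => ?_) i
  · have h : (Fin.succ 0 : Fin (k + 3)) = 1 := by ext; simp
    rw [h]; exact h1
  · refine Fin.cases (motive := fun i : Fin (k + 1) => P i.succ.succ) ?_ (fun i => ?_) i
    · have h : (Fin.succ (Fin.succ 0) : Fin (k + 3)) = 2 := by ext; rw [val2]; simp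
      rw [h]; exact h2
    · exact h3 i

theorem lat_mul (a b : Fin (k + 3) → ℤ) : ∃ d : Fin (k + 3) → ℤ, tr (lat a) (lat b) = lat d := by
  obtain ⟨a', b', h1, h2⟩ := unit_mul (a 0) (b 1) (b 2)
  refine ⟨fun i => if i = 0 then a 0 + b 0 else if i = 1 then a 1 + a' else
    if i = 2 then a 2 + b' else a i + b i, ?_⟩
  funext i
  revert i
  refine cases3 ?_ ?_ ?_ (fun j => ?_)
  · rw [tr_zero, lat0, lat0, lat0]
    simp only [if_true]
    push_cast; ring
  · rw [tr_apply, lat1, lat1, lat1, c1, lat0, one_mul, h1]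
    simp only [one_ne_zero', two_ne_one, two_ne_zero', if_true, if_false]
    push_cast; ring
  · rw [tr_apply, lat2, lat2, lat2, c2, lat0, neg_one_mul, h2]
    simp only [one_ne_zero', two_ne_one, two_ne_zero', if_true, if_false]
    push_cast; ring
  · rw [tr_apply, lat3, lat3, lat3, c3]
    obtain ⟨e1, e2, e3⟩ := ne3 j
    simp only [e1, e2, e3, if_false]
    push_cast; simp

theorem lat_inv (a : Fin (k + 3) → ℤ) : ∃ d : Fin (k + 3) → ℤ, (tr (lat a)).symm 0 = lat d := by
  obtain ⟨a', b', h1, h2⟩ := unit_mul (-a 0) (-a 1) (-a 2)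
  refine ⟨fun i => if i = 0 then -a 0 else if i = 1 then a' else
    if i = 2 then b' else -a i, ?_⟩
  have hs : ∀ i, (tr (lat a)).symm 0 i = Real.exp (-(c i * lat a 0)) * (0 - lat a i) := by
    intro i; rfl
  funext i
  rw [hs]
  revert i
  refine cases3 ?_ ?_ ?_ (fun j => ?_)
  · rw [c0, lat0, lat0]
    simp
  · rw [c1, lat0, lat1, lat1]
    simp only [one_ne_zero', two_ne_one, two_ne_zero', if_true, if_false]
    rw [← h1]
    push_cast; ring_nf
  · rw [c2, lat0, lat2, lat2]
    simp only [one_ne_zero', two_ne_one, two_ne_zero', if_true, if_false]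
    rw [← h2]
    push_cast; ring_nf
  · rw [lat3, lat3, c3]
    obtain ⟨e1, e2, e3⟩ := ne3 j
    simp only [e1, e2, e3, if_false]
    push_cast; simp

/-- The group `Γ`. -/
noncomputable def Gam (k : ℕ) : Subgroup (Equiv.Perm (V (k + 3))) where
  carrier := {g | ∃ a : Fin (k + 3) → ℤ, g = tr (lat a)}
  mul_mem' := by
    rintro _ _ ⟨a, rfl⟩ ⟨b, rfl⟩
    obtain ⟨d, hd⟩ := lat_mul a b
    exact ⟨d, by rw [tr_mul, hd]⟩
  one_mem' := ⟨0, by
    have : lat (0 : Fin (k + 3) → ℤ) = 0 := by
      funext i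
      revert i
      refine cases3 ?_ ?_ ?_ (fun j => ?_)
      · rw [lat0]; simp
      · rw [lat1]; simp
      · rw [lat2]; simp
      · rw [lat3]; simp
    rw [this, tr_one]⟩
  inv_mem' := by
    rintro _ ⟨a, rfl⟩
    obtain ⟨d, hd⟩ := lat_inv a
    exact ⟨d, by rw [tr_inv, hd]⟩

theorem mem_Gam {g : Equiv.Perm (V (k + 3))} :
    g ∈ Gam k ↔ ∃ a : Fin (k + 3) → ℤ, g = tr (lat a) := Iff.rfl

theorem contDiff_tr (w : V (k + 3)) : ContDiff ℝ ∞ (tr w) := by
  have : (tr w : V (k + 3) → V (k + 3)) =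
      fun x => fun i => w i + Real.exp (c i * w 0) * x i := rfl
  rw [this]
  fun_prop

theorem Gam_free (g : Equiv.Perm (V (k + 3))) (hg : g ∈ Gam k) (x : V (k + 3)) (hx : g x = x) :
    g = 1 := by
  obtain ⟨a, rfl⟩ := hg
  have h0 : lat a 0 = 0 := by
    have := congrFun hx 0
    rw [tr_zero] at this
    linarith
  have : lat a = 0 := by
    funext i
    have := congrFun hx i
    rw [tr_apply, h0] at this
    simpa using this
  rw [this, tr_one]

theorem Gam_cocompact : ∃ K : Set (V (k + 3)), IsCompact K ∧ ∀ x, ∃ g ∈ Gam k, g x ∈ K := by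
  refine ⟨Metric.closedBall 0 (3 + s0), isCompact_closedBall _ _, fun x => ?_⟩
  set m : ℤ := -⌊x 0 / s0⌋ with hm
  set X : ℝ := Real.exp (m * s0) * x 1 with hX
  set Y : ℝ := Real.exp (-(m * s0)) * x 2 with hY
  have hφ : goldenRatio - goldenConj ≠ 0 := by
    have := goldenRatio_pos
    have := goldenConj_neg
    intro h
    linarith
  obtain ⟨β, hβ⟩ : ∃ β : ℝ, β * (goldenRatio - goldenConj) = Y - X := ⟨_, div_mul_cancel₀ _ hφ⟩
  set α : ℝ := -X - β * goldenRatio with hα
  have e1 : α + β * goldenRatio = -X := by rw [hα]; ring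
  have e2 : α + β * goldenConj = -Y := by rw [hα]; linarith
  refine ⟨_, ⟨fun i => if i = 0 then m else if i = 1 then ⌊α⌋ else if i = 2 then ⌊β⌋ else
    -⌊x i⌋, rfl⟩, ?_⟩
  have hs := s0_pos
  rw [mem_closedBall_zero_iff, pi_norm_le_iff_of_nonneg (by linarith)]
  have f1 := Int.floor_le α
  have f2 := Int.lt_floor_add_one α
  have f3 := Int.floor_le β
  have f4 := Int.lt_floor_add_one β
  have g1 := goldenRatio_pos
  have g2 := goldenRatio_lt_two
  have g3 := goldenConj_neg
  have g4 := neg_one_lt_goldenConj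
  refine cases3 ?_ ?_ ?_ (fun j => ?_)
  · rw [tr_zero, lat0, Real.norm_eq_abs, abs_le]
    simp only [if_true]
    have h1 := Int.floor_le (x 0 / s0)
    have h2 := Int.lt_floor_add_one (x 0 / s0)
    rw [le_div_iff₀ hs] at h1
    rw [div_lt_iff₀ hs] at h2
    rw [hm]
    push_cast
    constructor <;> nlinarith
  · rw [tr_apply, lat1, lat0, c1, one_mul]
    simp only [one_ne_zero', two_ne_one, two_ne_zero', if_true, if_false]
    rw [← hX, Real.norm_eq_abs, abs_le]
    constructor <;> nlinarith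
  · rw [tr_apply, lat2, lat0, c2, neg_one_mul]
    simp only [one_ne_zero', two_ne_one, two_ne_zero', if_true, if_false]
    rw [← hY, Real.norm_eq_abs, abs_le]
    constructor <;> nlinarith
  · rw [tr_apply, lat3, c3]
    obtain ⟨e1, e2, e3⟩ := ne3 j
    simp only [e1, e2, e3, if_false]
    have h1 := Int.floor_le (x j.succ.succ.succ)
    have h2 := Int.lt_floor_add_one (x j.succ.succ.succ)
    rw [Real.norm_eq_abs, abs_le]
    push_cast
    simp only [zero_mul, Real.exp_zero, one_mul]
    constructor <;> linarith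

theorem Gam_proper (K : Set (V (k + 3))) (hK : IsCompact K) :
    {g | g ∈ Gam k ∧ (g '' K ∩ K).Nonempty}.Finite := by
  obtain ⟨R, hR⟩ := hK.isBounded.exists_norm_le
  have hs := s0_pos
  set B : ℝ := R + Real.exp (2 * R) * R with hB
  set N : ℤ := ⌈5 * B + 2 * R / s0⌉ with hN
  refine ((Set.finite_Icc (fun _ : Fin (k + 3) => -N) (fun _ => N)).image
    (fun a => tr (lat a))).subset ?_
  rintro g ⟨⟨a, rfl⟩, y, ⟨x, hx, hxy⟩, hy⟩
  refine ⟨a, ?_, rfl⟩
  have hR0 : 0 ≤ R := (norm_nonneg x).trans (hR x hx)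
  have hB0 : 0 ≤ B := by positivity
  have hx' : ∀ i, |x i| ≤ R := fun i => (norm_le_pi_norm x i).trans (hR x hx)
  have hy' : ∀ i, |y i| ≤ R := fun i => (norm_le_pi_norm y i).trans (hR y hy)
  have e0 : |lat a 0| ≤ 2 * R := by
    have h1 : lat a 0 = y 0 - x 0 := by rw [← hxy, tr_zero]; ring
    rw [h1]
    calc |y 0 - x 0| ≤ |y 0| + |x 0| := abs_sub _ _
      _ ≤ 2 * R := by linarith [hx' 0, hy' 0]
  have ei : ∀ i, |lat a i| ≤ B := by
    intro i
    have h1 : lat a i = y i - Real.exp (c i * lat a 0) * x i := by rw [← hxy, tr_apply]; ring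
    have h2 : Real.exp (c i * lat a 0) ≤ Real.exp (2 * R) := by
      apply Real.exp_le_exp.2
      have h3 : |c i| ≤ 1 := by
        unfold c; split_ifs <;> simp
      calc c i * lat a 0 ≤ |c i * lat a 0| := le_abs_self _
        _ = |c i| * |lat a 0| := abs_mul _ _
        _ ≤ 1 * (2 * R) := mul_le_mul h3 e0 (abs_nonneg _) zero_le_one
        _ = 2 * R := one_mul _
    rw [h1]
    calc |y i - Real.exp (c i * lat a 0) * x i| ≤ |y i| + |Real.exp (c i * lat a 0) * x i| :=
          abs_sub _ _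
      _ = |y i| + Real.exp (c i * lat a 0) * |x i| := by
          rw [abs_mul, abs_of_pos (Real.exp_pos _)]
      _ ≤ R + Real.exp (2 * R) * R :=
          add_le_add (hy' i) (mul_le_mul h2 (hx' i) (abs_nonneg _) (Real.exp_pos _).le)
  have hq : 0 ≤ 2 * R / s0 := by positivity
  have key : ∀ m : ℤ, |(m : ℝ)| ≤ 5 * B + 2 * R / s0 → -N ≤ m ∧ m ≤ N := by
    intro m hm
    have h1 : |(m : ℝ)| ≤ N := hm.trans (Int.le_ceil _)
    rw [abs_le] at h1
    constructor
    · have := h1.1; exact_mod_cast this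
    · have := h1.2; exact_mod_cast this
  have g1 := one_lt_goldenRatio
  have g2 := goldenRatio_lt_two
  have g3 := goldenConj_neg
  have l1 := ei 1
  have l2 := ei 2
  rw [lat1, abs_le] at l1
  rw [lat2, abs_le] at l2
  have b2 : |(a 2 : ℝ)| ≤ 2 * B := by
    have h5 : |(a 2 : ℝ)| * (goldenRatio - goldenConj) ≤ 2 * B := by
      rw [← abs_of_pos (show 0 < goldenRatio - goldenConj by linarith), ← abs_mul, abs_le]
      constructor <;> nlinarith
    nlinarith [abs_nonneg (a 2 : ℝ)]
  have hk : ∀ i, -N ≤ a i ∧ a i ≤ N := by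
    refine cases3 ?_ ?_ ?_ (fun j => ?_)
    · apply key
      rw [lat0, abs_mul, abs_of_pos hs, ← le_div_iff₀ hs] at e0
      linarith
    · apply key
      have b3 := abs_le.1 b2
      rw [abs_le]
      constructor <;> nlinarith
    · apply key
      linarith
    · apply key
      have := ei j.succ.succ.succ
      rw [lat3] at this
      linarith
  exact ⟨fun i => (hk i).1, fun i => (hk i).2⟩

theorem isDeckGroup : IsDeckGroup (Gam k) where
  smooth := by
    rintro _ ⟨a, rfl⟩
    exact contDiff_tr _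
  free := Gam_free
  proper := Gam_proper
  cocompact := Gam_cocompact

end lattice

/-! ### The Hamiltonian -/

section ham

variable {k : ℕ}

/-- The components of a covector in the left invariant frame. -/
noncomputable def mu (i : Fin (k + 3)) (z : Cot (k + 3)) : ℝ :=
  Real.exp (c i * z.1 0) * z.2 i

/-- The Hamiltonian. -/
noncomputable def Ham (z : Cot (k + 3)) : ℝ := (1 / 2) * ∑ i, (mu i z - del i) ^ 2

/-- The coordinate `x_0`. -/
noncomputable def prx (k : ℕ) : Cot (k + 3) →L[ℝ] ℝ :=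
  (ContinuousLinearMap.proj (R := ℝ) (φ := fun _ : Fin (k + 3) => ℝ) 0).comp
      (ContinuousLinearMap.fst ℝ (V (k + 3)) (V (k + 3)))

/-- The coordinate `p_i`. -/
noncomputable def prp (i : Fin (k + 3)) : Cot (k + 3) →L[ℝ] ℝ :=
  (ContinuousLinearMap.proj (R := ℝ) (φ := fun _ : Fin (k + 3) => ℝ) i).comp
      (ContinuousLinearMap.snd ℝ (V (k + 3)) (V (k + 3)))

theorem prx_apply (z : Cot (k + 3)) : prx k z = z.1 0 := rfl

theorem prp_apply (i : Fin (k + 3)) (z : Cot (k + 3)) : prp i z = z.2 i := rfl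

/-- The derivative of `mu`. -/
noncomputable def dmu (i : Fin (k + 3)) (z : Cot (k + 3)) : Cot (k + 3) →L[ℝ] ℝ :=
  (c i * mu i z) • prx k + Real.exp (c i * z.1 0) • prp i

theorem dmu_apply (i : Fin (k + 3)) (z w : Cot (k + 3)) :
    dmu i z w = c i * mu i z * w.1 0 + Real.exp (c i * z.1 0) * w.2 i := by
  simp [dmu, prx_apply, prp_apply]

theorem hasFDerivAt_mu (i : Fin (k + 3)) (z : Cot (k + 3)) : HasFDerivAt (mu i) (dmu i z) z := by
  have h1 : HasFDerivAt (fun z : Cot (k + 3) => z.1 0) (prx k) z := (prx k).hasFDerivAt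
  have h2 : HasFDerivAt (fun z : Cot (k + 3) => z.2 i) (prp i) z := (prp i).hasFDerivAt
  have h3 := ((h1.const_mul (c i)).exp).mul h2
  refine h3.congr_fderiv ?_
  refine ContinuousLinearMap.ext fun w => ?_
  simp [dmu, mu, prx_apply, prp_apply]
  ring

theorem contDiff_mu (i : Fin (k + 3)) : ContDiff ℝ ∞ (mu (k := k) i) := by
  unfold mu
  fun_prop

theorem contDiff_Ham : ContDiff ℝ ∞ (Ham (k := k)) := by
  unfold Ham
  have := contDiff_mu (k := k)
  fun_prop

theorem D_Ham (z w : Cot (k + 3)) :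
    D Ham z w = ∑ i, (mu i z - del i) * dmu i z w := by
  have h1 : ∀ i, HasFDerivAt (fun z : Cot (k + 3) => (mu i z - del i) ^ 2)
      ((2 * (mu i z - del i)) • dmu i z) z := by
    intro i
    have := ((hasFDerivAt_mu i z).sub_const (del i)).pow 2
    refine this.congr_fderiv ?_
    simp
  have h2 : HasFDerivAt (fun z : Cot (k + 3) => ∑ i, (mu i z - del i) ^ 2)
      (∑ i, (2 * (mu i z - del i)) • dmu i z) z := HasFDerivAt.fun_sum fun i _ => h1 i
  have h3 := (h2.const_mul (1 / 2)).fderiv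
  change fderiv ℝ (fun z : Cot (k + 3) => (1 / 2) * ∑ i, (mu i z - del i) ^ 2) z w = _
  rw [h3]
  simp [Finset.mul_sum]
  refine Finset.sum_congr rfl fun i _ => ?_
  ring

theorem lift_tr (w : V (k + 3)) (z : Cot (k + 3)) :
    lift (tr w) z = (tr w z.1, fun i => Real.exp (-(c i * w 0)) * z.2 i) := by
  have h2 : ∀ y, fderiv ℝ (tr w).symm y =
      ContinuousLinearMap.pi fun i => Real.exp (-(c i * w 0)) •
        ContinuousLinearMap.proj (R := ℝ) (φ := fun _ : Fin (k + 3) => ℝ) i := by
    intro y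
    set A : V (k + 3) →L[ℝ] V (k + 3) := ContinuousLinearMap.pi fun i =>
      Real.exp (-(c i * w 0)) • ContinuousLinearMap.proj (R := ℝ) (φ := fun _ : Fin (k + 3) => ℝ) i
    have h1 : ((tr w).symm : V (k + 3) → V (k + 3)) = fun y => A (y - w) := by
      funext y i
      rfl
    rw [h1]
    exact (A.hasFDerivAt.comp y ((hasFDerivAt_id y).sub_const w)).fderiv
  unfold lift
  refine Prod.ext rfl ?_
  funext i
  simp only [h2]
  rw [Finset.sum_eq_single i]
  · simp; ring
  · intro j _ hj
    simp [hj]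
  · simp

theorem mu_lift (w : V (k + 3)) (z : Cot (k + 3)) (i : Fin (k + 3)) :
    mu i (lift (tr w) z) = mu i z := by
  rw [lift_tr]
  unfold mu
  simp only [tr_zero]
  rw [← mul_assoc, ← Real.exp_add]
  congr 2
  ring

theorem Ham_invariant : Invariant (Gam k) Ham := by
  rintro _ ⟨a, rfl⟩ z
  simp only [Ham, mu_lift]

theorem fibreConvex_Ham : FibreConvex (Ham (k := k)) := by
  intro x p a ha
  have h5 : (fun z : Cot (k + 3) => D Ham z (0, a)) =
      fun z => ∑ i, (mu i z - del i) * (Real.exp (c i * z.1 0) * a i) := by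
    funext z
    rw [D_Ham]
    refine Finset.sum_congr rfl fun i _ => ?_
    rw [dmu_apply]
    simp
  rw [h5]
  have h6 : ∀ (i : Fin (k + 3)) (z : Cot (k + 3)),
      HasFDerivAt (fun z : Cot (k + 3) => (mu i z - del i) * (Real.exp (c i * z.1 0) * a i))
      ((mu i z - del i) • ((a i) • (Real.exp (c i * z.1 0) • (c i • prx k))) +
        (Real.exp (c i * z.1 0) * a i) • dmu i z) z := by
    intro i z
    have h1 : HasFDerivAt (fun z : Cot (k + 3) => z.1 0) (prx k) z := (prx k).hasFDerivAt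
    exact ((hasFDerivAt_mu i z).sub_const (del i)).mul
      (((h1.const_mul (c i)).exp).mul_const (a i))
  unfold D
  rw [(HasFDerivAt.fun_sum (u := Finset.univ) fun i _ => h6 i (x, p)).fderiv]
  have h7 : ∀ i : Fin (k + 3),
      ((mu i (x, p) - del i) • ((a i) • (Real.exp (c i * x 0) • (c i • prx k))) +
        (Real.exp (c i * x 0) * a i) • dmu i (x, p)) (0, a) =
      (Real.exp (c i * x 0) * a i) * (Real.exp (c i * x 0) * a i) := by
    intro i
    simp [dmu_apply, prx_apply]
  simp only [sum_apply]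
  rw [Finset.sum_congr rfl fun i _ => h7 i]
  apply Finset.sum_pos'
  · intro i _
    exact mul_self_nonneg _
  · by_contra hcon
    apply ha
    funext i
    by_contra hi
    apply hcon
    exact ⟨i, Finset.mem_univ _, mul_self_pos.2 (mul_ne_zero (Real.exp_pos _).ne' hi)⟩

theorem isE0_Ham : IsE0 (Ham (k := k)) 0 := by
  constructor
  · intro x
    refine ⟨fun i => if i = 1 then Real.exp (-x 0) else 0, ?_⟩
    unfold Ham
    rw [Finset.sum_eq_zero, mul_zero]
    intro i _
    by_cases h : i = 1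
    · subst h
      simp [mu, c1, d1, ← Real.exp_add]
    · simp [mu, del, h]
  · intro h hh
    obtain ⟨p, hp⟩ := hh 0
    rw [← hp]
    unfold Ham
    have : 0 ≤ ∑ i : Fin (k + 3), (mu i ((0 : V (k + 3)), p) - del i) ^ 2 :=
      Finset.sum_nonneg fun i _ => sq_nonneg _
    linarith

theorem superlinear_Ham : Superlinear (Ham (k := k)) := by
  intro K hK C
  obtain ⟨R, hR⟩ := hK.isBounded.exists_norm_le
  set B : ℝ := Real.exp |R| with hB
  have hB1 : 0 < B := Real.exp_pos _
  set n : ℝ := (k : ℝ) + 3 with hn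
  have hn0 : 0 < n := by positivity
  set E : ℝ := |C| * B with hE
  have hE0 : 0 ≤ E := by positivity
  refine ⟨B * (2 * n * E + 2), fun x hx p hp => ?_⟩
  set M : ℝ := ∑ i, |mu i (x, p)| with hM
  have hM0 : 0 ≤ M := Finset.sum_nonneg fun i _ => abs_nonneg _
  have h1 : ‖p‖ ≤ B * M := by
    rw [pi_norm_le_iff_of_nonneg (by positivity)]
    intro i
    rw [hM, Finset.mul_sum]
    refine le_trans ?_ (Finset.single_le_sum (f := fun i => B * |mu i (x, p)|)
      (fun i _ => by positivity) (Finset.mem_univ i))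
    unfold mu
    rw [abs_mul, abs_of_pos (Real.exp_pos _), ← mul_assoc, hB, ← Real.exp_add]
    have h2 : 0 ≤ |R| + c i * x 0 := by
      have h3 : |c i * x 0| ≤ |R| := by
        rw [abs_mul]
        have h4 : |c i| ≤ 1 := by
          unfold c; split_ifs <;> simp
        calc |c i| * |x 0| ≤ 1 * ‖x‖ :=
              mul_le_mul h4 (norm_le_pi_norm x 0) (abs_nonneg _) zero_le_one
          _ ≤ |R| := by rw [one_mul]; exact (hR x hx).trans (le_abs_self _)
      have := neg_abs_le (c i * x 0)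
      linarith
    have h5 : 1 ≤ Real.exp (|R| + c i * x 0) := Real.one_le_exp h2
    calc ‖p i‖ = 1 * |p i| := (one_mul _).symm
      _ ≤ _ := mul_le_mul_of_nonneg_right h5 (abs_nonneg _)
  have h2 : 2 * n * E + 2 ≤ M := by
    have := hp.trans h1
    exact le_of_mul_le_mul_left this hB1
  have h3 : (M - 1) ^ 2 ≤ n * (2 * Ham (x, p)) := by
    have h4 : M - 1 ≤ ∑ i, |mu i (x, p) - del i| := by
      have h5 : ∑ i : Fin (k + 3), |del i| = 1 := by
        rw [sum3, d0, d1, d2]
        simp [d3]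
      rw [hM, ← h5, ← Finset.sum_sub_distrib]
      refine Finset.sum_le_sum fun i _ => abs_sub_abs_le_abs_sub _ _
    have h6 : (∑ i, |mu i (x, p) - del i|) ^ 2 ≤ n * ∑ i, |mu i (x, p) - del i| ^ 2 := by
      have := sq_sum_le_card_mul_sum_sq (s := (Finset.univ : Finset (Fin (k + 3))))
        (f := fun i => |mu i (x, p) - del i|)
      simpa [hn] using this
    have h7 : (M - 1) ^ 2 ≤ (∑ i, |mu i (x, p) - del i|) ^ 2 := by
      have : 0 ≤ M - 1 := by nlinarith
      exact pow_le_pow_left₀ this h4 2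
    have h8 : 2 * Ham (x, p) = ∑ i, |mu i (x, p) - del i| ^ 2 := by
      unfold Ham
      simp only [sq_abs]
      ring
    rw [h8]
    exact h7.trans h6
  have h4 : 2 * n * (E * M) ≤ (M - 1) ^ 2 := by nlinarith
  have h5 : 2 * n * (E * M) ≤ 2 * n * Ham (x, p) := by linarith
  have h6 : E * M ≤ Ham (x, p) := le_of_mul_le_mul_left h5 (by linarith)
  calc C * ‖p‖ ≤ |C| * ‖p‖ := mul_le_mul_of_nonneg_right (le_abs_self _) (norm_nonneg _)
    _ ≤ |C| * (B * M) := mul_le_mul_of_nonneg_left h1 (abs_nonneg _)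
    _ = E * M := by rw [hE]; ring
    _ ≤ _ := h6

/-! ### The critical value -/

/-- A smooth function whose differential stays below the level `h < 1 / 2` does not exist. -/
theorem no_subsolution (u : V (k + 3) → ℝ) (hu : ContDiff ℝ ∞ u) (h : ℝ) (hh : h < 1 / 2)
    (hle : ∀ x, Ham (x, diff u x) ≤ h) : False := by
  have hd : Differentiable ℝ u := hu.differentiable (by simp)
  have hcomp : ∀ (x : V (k + 3)) (i : Fin (k + 3)),
      (mu i (x, diff u x) - del i) ^ 2 ≤ 2 * h := by
    intro x i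
    have h1 := hle x
    unfold Ham at h1
    have h2 : (mu i (x, diff u x) - del i) ^ 2 ≤
        ∑ i, (mu i (x, diff u x) - del i) ^ 2 :=
      Finset.single_le_sum (f := fun i => (mu i (x, diff u x) - del i) ^ 2)
        (fun i _ => sq_nonneg _) (Finset.mem_univ i)
    linarith
  have hh0 : 0 ≤ 2 * h := (sq_nonneg _).trans (hcomp 0 0)
  set r : ℝ := Real.sqrt (2 * h) with hr
  have hr0 : 0 ≤ r := Real.sqrt_nonneg _
  have hr1 : r < 1 := by
    rw [hr, Real.sqrt_lt' one_pos]
    linarith
  have hr2 : r ^ 2 = 2 * h := Real.sq_sqrt hh0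
  have habs : ∀ (x : V (k + 3)) (i : Fin (k + 3)), |mu i (x, diff u x) - del i| ≤ r := by
    intro x i
    rw [← abs_of_nonneg hr0, ← sq_le_sq, hr2]
    exact hcomp x i
  -- the two partial derivatives
  set P : ℝ → ℝ → V (k + 3) := fun t l => t • Pi.single 0 1 + l • Pi.single 1 1 with hP
  have hP0 : ∀ t l, P t l 0 = t := by
    intro t l
    have : (0 : Fin (k + 3)) ≠ 1 := one_ne_zero'.symm
    simp [hP, this]
  have hl : ∀ t l, HasDerivAt (fun l => u (P t l)) (fderiv ℝ u (P t l) (Pi.single 1 1)) l := by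
    intro t l
    have h1 : HasDerivAt (fun l => P t l) (Pi.single 1 1) l := by
      have := ((hasDerivAt_id l).smul_const (Pi.single 1 1 : V (k + 3))).const_add
        (t • (Pi.single 0 1 : V (k + 3)))
      simpa [hP] using this
    exact (hd (P t l)).hasFDerivAt.comp_hasDerivAt l h1
  have ht : ∀ t l, HasDerivAt (fun t => u (P t l)) (fderiv ℝ u (P t l) (Pi.single 0 1)) t := by
    intro t l
    have h1 : HasDerivAt (fun t => P t l) (Pi.single 0 1) t := by
      have := ((hasDerivAt_id t).smul_const (Pi.single 0 1 : V (k + 3))).add_const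
        (l • (Pi.single 1 1 : V (k + 3)))
      simpa [hP] using this
    exact (hd (P t l)).hasFDerivAt.comp_hasDerivAt t h1
  have bl : ∀ t l, (1 - r) * Real.exp (-t) ≤ fderiv ℝ u (P t l) (Pi.single 1 1) ∧
      fderiv ℝ u (P t l) (Pi.single 1 1) ≤ (1 + r) * Real.exp (-t) := by
    intro t l
    have h1 := habs (P t l) 1
    unfold mu diff at h1
    simp only [c1, d1, one_mul, hP0] at h1
    rw [abs_le] at h1
    have h2 : Real.exp (-t) * Real.exp t = 1 := by rw [← Real.exp_add]; simp
    have h3 := Real.exp_pos (-t)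
    have h4 : fderiv ℝ u (P t l) (Pi.single 1 1) =
        Real.exp (-t) * (Real.exp t * fderiv ℝ u (P t l) (Pi.single 1 1)) := by
      rw [← mul_assoc, h2, one_mul]
    constructor
    · rw [h4]; nlinarith
    · rw [h4]; nlinarith
  have bt : ∀ t l, |fderiv ℝ u (P t l) (Pi.single 0 1)| ≤ r := by
    intro t l
    have h1 := habs (P t l) 0
    unfold mu diff at h1
    simpa [c0, d0] using h1
  -- choice of the parameters
  obtain ⟨s, hs0, hs⟩ : ∃ s : ℝ, 0 ≤ s ∧ 3 ≤ (1 - r) * Real.exp s := by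
    refine ⟨3 / (1 - r), div_nonneg (by norm_num) (by linarith), ?_⟩
    have h1 := Real.add_one_le_exp (3 / (1 - r))
    have h2 : (1 - r) * (3 / (1 - r)) = 3 := by
      field_simp
      have : 1 - r ≠ 0 := by linarith
      field_simp
    nlinarith
  set l : ℝ := 2 * s + 1 with hl'
  have hl0 : 0 ≤ l := by linarith
  have k1 : (1 - r) * Real.exp s * (l - 0) ≤ u (P (-s) l) - u (P (-s) 0) := by
    refine mul_sub_le_image_sub_of_le_deriv (f := fun l => u (P (-s) l))
      (fun l => (hl (-s) l).differentiableAt) (fun l => ?_) hl0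
    rw [(hl (-s) l).deriv]
    have := (bl (-s) l).1
    rwa [neg_neg] at this
  have k2 : u (P 0 l) - u (P 0 0) ≤ (1 + r) * (l - 0) := by
    refine image_sub_le_mul_sub_of_deriv_le (f := fun l => u (P 0 l))
      (fun l => (hl 0 l).differentiableAt) (fun l => ?_) hl0
    rw [(hl 0 l).deriv]
    have := (bl 0 l).2
    simpa using this
  have k3 : u (P (-s) l) - u (P 0 l) ≤ r * s := by
    have := mul_sub_le_image_sub_of_le_deriv (f := fun t => u (P t l)) (C := -r)
      (fun t => (ht t l).differentiableAt) (fun t => by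
        rw [(ht t l).deriv]; exact (abs_le.1 (bt t l)).1) (show -s ≤ 0 by linarith)
    linarith
  have k4 : u (P 0 0) - u (P (-s) 0) ≤ r * s := by
    have := image_sub_le_mul_sub_of_deriv_le (f := fun t => u (P t 0)) (C := r)
      (fun t => (ht t 0).differentiableAt) (fun t => by
        rw [(ht t 0).deriv]; exact (abs_le.1 (bt t 0)).2) (show -s ≤ 0 by linarith)
    linarith
  nlinarith

theorem criticalValue_Ham : criticalValue (Ham (k := k)) = ((1 / 2 : ℝ) : EReal) := by
  apply le_antisymm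
  · refine iInf₂_le_of_le (fun _ => 0) contDiff_const (iSup_le fun x => ?_)
    rw [EReal.coe_le_coe_iff]
    have h1 : diff (fun _ : V (k + 3) => (0 : ℝ)) x = 0 := by
      funext i
      simp [diff]
    rw [h1]
    unfold Ham
    have h2 : ∑ i : Fin (k + 3), (mu i (x, 0) - del i) ^ 2 = 1 := by
      rw [sum3, d0, d1, d2]
      simp [d3, mu]
    rw [h2]; norm_num
  · refine le_iInf₂ fun u hu => ?_
    by_contra hcon
    rw [not_le] at hcon
    obtain ⟨h, h1, h2⟩ := EReal.lt_iff_exists_real_btwn.1 hcon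
    refine no_subsolution u hu h (by exact_mod_cast h2) fun x => ?_
    have := (le_iSup (fun x : V (k + 3) => ((Ham (x, diff u x) : ℝ) : EReal)) x).trans h1.le
    exact_mod_cast this

/-! ### The contact form -/

/-- The function `f = m_0 (3 - m_1) / 2`. -/
noncomputable def ff (z : Cot (k + 3)) : ℝ := (1 / 2) * (mu 0 z * (3 - mu 1 z))

theorem contDiff_ff : ContDiff ℝ ∞ (ff (k := k)) := by
  unfold ff
  have := contDiff_mu (k := k)
  fun_prop

theorem fderiv_ff (z w : Cot (k + 3)) :
    fderiv ℝ ff z w = (1 / 2) * (dmu 0 z w * (3 - mu 1 z) - mu 0 z * dmu 1 z w) := by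
  have h1 := ((hasFDerivAt_mu 0 z).mul ((hasFDerivAt_mu 1 z).const_sub 3)).const_mul (1 / 2)
  have h2 : fderiv ℝ ff z = (1 / 2 : ℝ) • (mu 0 z • -dmu 1 z + (3 - mu 1 z) • dmu 0 z) :=
    h1.fderiv
  rw [h2]
  simp
  ring

/-- The Liouville form `p dx` plus the differential of `f`. -/
noncomputable def Lam (z w : Cot (k + 3)) : ℝ := ∑ i, z.2 i * w.1 i + fderiv ℝ ff z w

theorem contDiff_Lam (w : Cot (k + 3)) : ContDiff ℝ ∞ (fun z => Lam z w) := by
  have h1 : ContDiff ℝ ∞ (fderiv ℝ (ff (k := k))) := contDiff_ff.fderiv_right (by simp)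
  have h2 : ContDiff ℝ ∞ (fun z : Cot (k + 3) => fderiv ℝ ff z w) :=
    h1.clm_apply contDiff_const
  have h3 : ContDiff ℝ ∞ (fun z : Cot (k + 3) => ∑ i, z.2 i * w.1 i) := by fun_prop
  exact h3.add h2

theorem symm_of_smooth {E : Type*} [NormedAddCommGroup E] [NormedSpace ℝ E]
    (f : E → ℝ) (hf : ContDiff ℝ ∞ f) (z u v : E) :
    fderiv ℝ (fun y => fderiv ℝ f y v) z u = fderiv ℝ (fun y => fderiv ℝ f y u) z v := by
  have hf' : DifferentiableAt ℝ (fderiv ℝ f) z :=
    ((hf.fderiv_right (m := ∞) (by simp)).differentiable (by simp)) z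
  have h3 : fderiv ℝ (fderiv ℝ f) z u v = fderiv ℝ (fderiv ℝ f) z v u := by
    refine (hf.contDiffAt.isSymmSndFDerivAt ?_) u v
    simp only [minSmoothness_of_isRCLikeNormedField]
    exact WithTop.coe_le_coe.2 le_top
  rw [fderiv_clm_apply hf' (differentiableAt_const v),
    fderiv_clm_apply hf' (differentiableAt_const u)]
  simpa using h3

theorem extD_Lam (z u v : Cot (k + 3)) : extD Lam z u v = omega u v := by
  have h1 : ContDiff ℝ ∞ (fderiv ℝ (ff (k := k))) := contDiff_ff.fderiv_right (by simp)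
  have h2 : ∀ w : Cot (k + 3), DifferentiableAt ℝ (fun z : Cot (k + 3) => fderiv ℝ ff z w) z :=
    fun w => ((h1.clm_apply contDiff_const).differentiable (by simp)) z
  have h3 : ∀ w : Cot (k + 3), HasFDerivAt (fun z : Cot (k + 3) => ∑ i, z.2 i * w.1 i)
      (∑ i, w.1 i • prp i) z := by
    intro w
    refine HasFDerivAt.fun_sum fun i _ => ?_
    have h4 : HasFDerivAt (fun z : Cot (k + 3) => z.2 i) (prp i) z := (prp i).hasFDerivAt
    exact h4.mul_const (w.1 i)
  have h5 : ∀ u w : Cot (k + 3), D (fun y => Lam y w) z u =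
      ∑ i, w.1 i * u.2 i + fderiv ℝ (fun y => fderiv ℝ ff y w) z u := by
    intro u w
    have h6 : fderiv ℝ (fun y : Cot (k + 3) => Lam y w) z =
        ∑ i, w.1 i • prp i + fderiv ℝ (fun y => fderiv ℝ ff y w) z :=
      ((h3 w).add (h2 w).hasFDerivAt).fderiv
    unfold D
    rw [h6]
    simp [prp_apply]
  unfold extD
  rw [h5, h5, symm_of_smooth ff contDiff_ff z u v]
  unfold omega
  rw [Finset.sum_sub_distrib, add_sub_add_right_eq_sub]
  congr 1
  · exact Finset.sum_congr rfl fun i _ => mul_comm _ _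
  · exact Finset.sum_congr rfl fun i _ => mul_comm _ _

theorem ff_lift (w : V (k + 3)) (z : Cot (k + 3)) : ff (lift (tr w) z) = ff z := by
  simp only [ff, mu_lift]

/-- The derivative of the lift of a translation. -/
noncomputable def Dlift (w : V (k + 3)) : Cot (k + 3) →L[ℝ] Cot (k + 3) :=
  ((ContinuousLinearMap.pi fun i => Real.exp (c i * w 0) •
    ContinuousLinearMap.proj (R := ℝ) (φ := fun _ : Fin (k + 3) => ℝ) i).comp
      (ContinuousLinearMap.fst ℝ (V (k + 3)) (V (k + 3)))).prod
  ((ContinuousLinearMap.pi fun i => Real.exp (-(c i * w 0)) •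
    ContinuousLinearMap.proj (R := ℝ) (φ := fun _ : Fin (k + 3) => ℝ) i).comp
      (ContinuousLinearMap.snd ℝ (V (k + 3)) (V (k + 3))))

theorem Dlift_apply (w : V (k + 3)) (v : Cot (k + 3)) : Dlift w v =
    (fun i => Real.exp (c i * w 0) * v.1 i, fun i => Real.exp (-(c i * w 0)) * v.2 i) := rfl

theorem hasFDerivAt_lift (w : V (k + 3)) (z : Cot (k + 3)) :
    HasFDerivAt (lift (tr w)) (Dlift w) z := by
  have h0 : (lift (tr w) : Cot (k + 3) → Cot (k + 3)) = fun z => (w, 0) + Dlift w z := by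
    funext z
    rw [lift_tr, Dlift_apply]
    refine Prod.ext ?_ ?_
    · funext i
      simp [tr_apply]
    · funext i
      simp
  rw [h0]
  exact ((Dlift w).hasFDerivAt).const_add _

theorem Lam_invariant (w : V (k + 3)) (z v : Cot (k + 3)) :
    Lam (lift (tr w) z) (fderiv ℝ (lift (tr w)) z v) = Lam z v := by
  have h1 : (fderiv ℝ ff (lift (tr w) z)).comp (fderiv ℝ (lift (tr w)) z) = fderiv ℝ ff z := by
    have hf : DifferentiableAt ℝ (ff (k := k)) (lift (tr w) z) :=
      (contDiff_ff.differentiable (by simp)) _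
    rw [← fderiv_comp z hf (hasFDerivAt_lift w z).differentiableAt]
    congr 1
    funext z
    exact ff_lift w z
  have h2 : fderiv ℝ ff (lift (tr w) z) (fderiv ℝ (lift (tr w)) z v) = fderiv ℝ ff z v := by
    rw [← h1]; rfl
  unfold Lam
  rw [h2, (hasFDerivAt_lift w z).fderiv, lift_tr, Dlift_apply]
  congr 1
  refine Finset.sum_congr rfl fun i _ => ?_
  simp only
  have : Real.exp (-(c i * w 0)) * Real.exp (c i * w 0) = 1 := by
    rw [← Real.exp_add]; simp
  linear_combination (z.2 i * v.1 i) * this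

theorem isOneForm_Lam : IsOneForm (Gam k) Lam where
  linear z := by
    constructor
    · intro u v
      unfold Lam
      rw [map_add]
      have : ∑ i, z.2 i * (u + v).1 i = ∑ i, z.2 i * u.1 i + ∑ i, z.2 i * v.1 i := by
        rw [← Finset.sum_add_distrib]
        refine Finset.sum_congr rfl fun i _ => ?_
        rw [Prod.fst_add, Pi.add_apply]; ring
      rw [this]; ring
    · intro a u
      unfold Lam
      rw [map_smul, smul_add]
      congr 1
      rw [smul_eq_mul, Finset.mul_sum]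
      refine Finset.sum_congr rfl fun i _ => ?_
      rw [Prod.smul_fst, Pi.smul_apply, smul_eq_mul]; ring
  smooth := contDiff_Lam
  invariant := by
    rintro _ ⟨a, rfl⟩ z v
    exact Lam_invariant _ z v

/-- The Hamiltonian vector field. -/
noncomputable def XH (z : Cot (k + 3)) : Cot (k + 3) :=
  (fun i => (mu i z - del i) * Real.exp (c i * z.1 0),
    fun i => if i = 0 then (-∑ i, (mu i z - del i) * (c i * mu i z)) else 0)

theorem omega_XH (z v : Cot (k + 3)) : omega (XH z) v = - D Ham z v := by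
  rw [D_Ham]
  unfold omega XH
  simp only
  rw [Finset.sum_sub_distrib]
  have h1 : ∑ i : Fin (k + 3), (if i = 0 then (-∑ i, (mu i z - del i) * (c i * mu i z)) else 0) *
      v.1 i = (-∑ i, (mu i z - del i) * (c i * mu i z)) * v.1 0 := by
    rw [Finset.sum_eq_single 0]
    · simp
    · intro j _ hj
      simp [hj]
    · simp
  rw [h1, neg_mul, Finset.sum_mul, ← Finset.sum_neg_distrib, ← Finset.sum_neg_distrib,
    ← Finset.sum_sub_distrib]
  refine Finset.sum_congr rfl fun i _ => ?_
  rw [dmu_apply]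
  ring

theorem Lam_XH (z : Cot (k + 3)) : Lam z (XH z) =
    (1 / 2) * mu 1 z * (mu 1 z - 1) ^ 2 + (5 - mu 1 z) / 2 * mu 2 z ^ 2 +
      (1 - mu 1 z / 2) * mu 0 z ^ 2 + ∑ j : Fin k, mu j.succ.succ.succ z ^ 2 := by
  have h2 : ∑ i, z.2 i * (XH z).1 i = ∑ i, (mu i z - del i) * mu i z := by
    refine Finset.sum_congr rfl fun i _ => ?_
    unfold XH
    simp only
    unfold mu
    ring
  have h3 : ∑ i, (mu i z - del i) * (c i * mu i z) =
      (mu 1 z - 1) * mu 1 z - mu 2 z * mu 2 z := by
    rw [sum3, c0, c1, c2, d0, d1, d2]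
    simp only [c3, d3]
    simp
    ring
  have h4 : (XH z).1 0 = mu 0 z := by
    unfold XH
    simp [c0, d0]
  have h5 : (XH z).2 0 = -((mu 1 z - 1) * mu 1 z - mu 2 z * mu 2 z) := by
    unfold XH
    simp only [if_true, h3]
  have h6 : (XH z).2 1 = 0 := by
    unfold XH
    simp
  unfold Lam
  rw [h2, fderiv_ff, dmu_apply, dmu_apply, h4, h5, h6, sum3, c0, c1, d0, d1, d2]
  simp only [d3]
  simp
  have h7 : ∑ j : Fin k, mu j.succ.succ.succ z * mu j.succ.succ.succ z =
      ∑ j : Fin k, mu j.succ.succ.succ z ^ 2 := by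
    refine Finset.sum_congr rfl fun j _ => ?_
    ring
  rw [h7]
  ring

theorem contactType (h : ℝ) (h0 : 0 < h) (h1 : h < 1 / 2) :
    IsContactType (Gam k) Ham h := by
  refine ⟨Lam, isOneForm_Lam, ?_⟩
  intro z hz
  refine ⟨fun u v _ _ => extD_Lam z u v, XH z, omega_XH z, ?_⟩
  rw [Lam_XH]
  have hz' : Ham z = (1 / 2) * (mu 0 z ^ 2 + (mu 1 z - 1) ^ 2 + mu 2 z ^ 2 +
      ∑ j : Fin k, mu j.succ.succ.succ z ^ 2) := by
    unfold Ham
    rw [sum3, d0, d1, d2]
    simp only [d3, sub_zero]
  rw [hz] at hz'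
  set S := ∑ j : Fin k, mu j.succ.succ.succ z ^ 2 with hS
  have hS0 : 0 ≤ S := Finset.sum_nonneg fun j _ => sq_nonneg _
  set a := mu 0 z
  set b := mu 1 z
  set d := mu 2 z
  have e1 : (b - 1) ^ 2 < 1 := by nlinarith [sq_nonneg a, sq_nonneg d]
  have e2 : 0 < b := by nlinarith
  have e3 : b < 2 := by nlinarith
  by_contra hcon
  rw [not_lt] at hcon
  have t1 : 0 ≤ 1 / 2 * b * (b - 1) ^ 2 := by positivity
  have t2 : 0 ≤ (5 - b) / 2 * d ^ 2 := by
    apply mul_nonneg _ (sq_nonneg _); linarith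
  have t3 : 0 ≤ (1 - b / 2) * a ^ 2 := by
    apply mul_nonneg _ (sq_nonneg _); linarith
  have u1 : (b - 1) ^ 2 = 0 := by
    have : 1 / 2 * b * (b - 1) ^ 2 = 0 := by linarith
    rcases mul_eq_zero.1 this with h | h
    · linarith
    · exact h
  have u2 : d ^ 2 = 0 := by
    have : (5 - b) / 2 * d ^ 2 = 0 := by linarith
    rcases mul_eq_zero.1 this with h | h
    · linarith
    · exact h
  have u3 : a ^ 2 = 0 := by
    have : (1 - b / 2) * a ^ 2 = 0 := by linarith
    rcases mul_eq_zero.1 this with h | h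
    · linarith
    · exact h
  have u4 : S = 0 := by linarith
  rw [u1, u2, u3, u4] at hz'
  linarith

end ham

end Pool.Agent.Helper58.MCV
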